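import Pool.Agent.H93.FS.Eng
import Pool.Agent.H86.FS.Defs

/-!
Adaptor between `Pool.Agent.H86.FS.Eng` and `Pool.Agent.H93.FS.Engine`.
-/

set_option autoImplicit false

open scoped commutatorElement

namespace Pool.Agent.H93.FS

open Pool.Agent.H86.FS

variable {G : Type*} [Group G]

/-- the engine of an `Eng` -/
def ofEng (E : Eng G) : Engine E.Γ G where
  th := (MonoidHom.fst G G).comp E.Γ.subtype
  et := (MonoidHom.snd G G).comp E.Γ.subtype
  d := E.δ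
  sg := E.ς
  th2 r := E.th_sq r r.2
  et2 r := E.et_sq r r.2
  cth r s u := E.c_th r r.2 s s.2 u u.2
  cet r s u := E.c_et r r.2 s s.2 u u.2
  sym r s := E.symm r r.2 s s.2
  d2 := E.δ_sq
  sg2 := E.ς_sq
  dth r := E.δ_th r r.2
  sget r := E.ς_et r r.2
  thsg r := E.th_ς r r.2
  det r := E.δ_et r r.2
  sbth r := E.σ_th r r.2
  sbet r := E.σ_et r r.2
  sbd := E.σ_δ
  sbsg := E.σ_ς

/-- the hypotheses of the M-lemma without `φ` -/
structure MD0 (E : Eng G) (x : G) : Prop where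
  et : ∀ r ∈ E.Γ, Commute r.2 x
  ς : Commute E.ς x
  σ : cj ⁅E.δ, E.ς⁆ x = x⁻¹
  swap : Commute x (cj E.δ x)
  th : ∀ r ∈ E.Γ, Commute r.1 (x * cj E.δ x)

theorem MD0.pow {E : Eng G} {x : G} (h : MD0 E x) (k : ℕ) : MD0 E (x ^ k) where
  et r hr := (h.et r hr).pow_right k
  ς := h.ς.pow_right k
  σ := by rw [cj_pow, h.σ, inv_pow]
  swap := by rw [cj_pow]; exact h.swap.pow_pow k k
  th r hr := by
    rw [cj_pow, ← h.swap.mul_pow]
    exact (h.th r hr).pow_right k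

theorem MD0.conj {E : Eng G} {φ x : G} (h : MD0 E x)
    (hΓ : ∀ r ∈ E.Γ, (φ⁻¹ * r.1 * φ, φ⁻¹ * r.2 * φ) ∈ E.Γ)
    (hδ : Commute φ E.δ) (hς : Commute φ E.ς) : MD0 E (cj φ x) where
  et r hr := by
    have h1 := commute_cj φ (h.et _ (hΓ r hr))
    have h2 : cj φ (φ⁻¹ * r.2 * φ) = r.2 := by simp [cj, mul_assoc]
    rwa [h2] at h1
  ς := by
    have h1 := commute_cj φ h.ς
    rwa [cj_eq hς] at h1
  σ := by
    have h1 : cj φ ⁅E.δ, E.ς⁆ = ⁅E.δ, E.ς⁆ := by rw [cj_comm, cj_eq hδ, cj_eq hς]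
    have h2 := commute_of_cj h1
    rw [cj_cj, ← h2.eq, ← cj_cj, h.σ, cj_inv]
  swap := by
    have h1 := commute_cj φ h.swap
    rwa [cj_cj, hδ.eq, ← cj_cj] at h1
  th r hr := by
    have h1 := commute_cj φ (h.th _ (hΓ r hr))
    have h2 : cj φ (φ⁻¹ * r.1 * φ) = r.1 := by simp [cj, mul_assoc]
    rwa [h2, cj_mul, cj_cj, hδ.eq, ← cj_cj] at h1

theorem MD0.of {E : Eng G} {φ x : G} (h : E.MD φ x) : MD0 E x where
  et := h.et
  ς := h.ς
  σ := h.σ
  swap := h.swap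
  th := h.th

theorem MD0.iter {E : Eng G} {φ x : G} (h : E.MD φ x) (n : ℕ) : MD0 E (cj (φ⁻¹ ^ n) x) := by
  induction n with
  | zero => simpa using MD0.of h
  | succ n ih =>
    rw [pow_succ', ← cj_cj]
    refine ih.conj ?_ h.φδ.inv_left h.φς.inv_left
    intro r hr
    simpa using h.φΓ r hr

theorem iterΓ {E : Eng G} {φ x : G} (h : E.MD φ x) (n : ℕ) {r : G × G} (hr : r ∈ E.Γ) :
    (cj (φ ^ n) r.1, cj (φ ^ n) r.2) ∈ E.Γ := by
  induction n with
  | zero => simpa using hr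
  | succ n ih =>
    rw [pow_succ', ← cj_cj, ← cj_cj]
    exact h.φΓ _ ih

theorem iterΓ' {E : Eng G} {φ x : G} (h : E.MD φ x) (n : ℕ) {r : G × G} (hr : r ∈ E.Γ) :
    (cj (φ⁻¹ ^ n) r.1, cj (φ⁻¹ ^ n) r.2) ∈ E.Γ := by
  induction n with
  | zero => simpa using hr
  | succ n ih =>
    rw [pow_succ', ← cj_cj, ← cj_cj]
    have := h.φΓ' _ ih
    simpa [cj] using this

theorem sn_cj (g : G) (r : G × G) : sn (cj g r.1, cj g r.2) = cj g (sn r) := by
  unfold sn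
  rw [cj_comm]

theorem mk_tower {E : Eng G} {t : ℕ → G} (h : ∀ n, MD0 E (t n))
    (hsq : ∀ n, t (n + 1) * t (n + 1) = t n) : Tower (ofEng E) t where
  sq := hsq
  et n r := (h n).et r r.2
  sg n := (h n).ς
  sb n := (h n).σ
  cc n := (h n).swap
  th n r := (h n).th r r.2

theorem exists_tower {E : Eng G} {φ x : G} (h : E.MD φ x) :
    ∃ t : ℕ → G, Tower (ofEng E) t ∧ t 0 = x ∧ Tower.N0 (ofEng E) t = E.N0 φ x := by
  rcases h.φx with hx | ⟨hx, h31⟩
  · refine ⟨fun n => cj (φ⁻¹ ^ n) x, mk_tower (fun n => MD0.iter h n) ?_, by simp, ?_⟩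
    · intro n
      show cj (φ⁻¹ ^ (n + 1)) x * cj (φ⁻¹ ^ (n + 1)) x = cj (φ⁻¹ ^ n) x
      rw [← cj_mul, ← hx, pow_succ, ← cj_cj]
      congr 1
      simp [cj, mul_assoc]
    · apply le_antisymm
      · refine (Subgroup.closure_le _).2 ?_
        rintro _ ⟨r, n, rfl⟩
        refine Subgroup.subset_closure ⟨n, _, iterΓ h n r.2, ?_⟩
        rw [sn_cj]
        show cj (sn (r : G × G)) (cj (φ⁻¹ ^ n) x) = _
        simp only [cj, mul_inv_rev, inv_pow, inv_inv]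
        group
      · refine (Subgroup.closure_le _).2 ?_
        rintro _ ⟨n, r, hr, rfl⟩
        refine Subgroup.subset_closure ⟨⟨_, iterΓ' h n hr⟩, n, ?_⟩
        show _ = cj (sn (cj (φ⁻¹ ^ n) r.1, cj (φ⁻¹ ^ n) r.2)) (cj (φ⁻¹ ^ n) x)
        rw [sn_cj]
        simp only [cj, mul_inv_rev, inv_pow, inv_inv]
        group
  · refine ⟨fun n => x ^ (16 ^ n), mk_tower (fun n => (MD0.of h).pow _) ?_, by simp, ?_⟩
    · intro n
      show x ^ (16 ^ (n + 1)) * x ^ (16 ^ (n + 1)) = x ^ (16 ^ n)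
      rw [← pow_add]
      have : 16 ^ (n + 1) + 16 ^ (n + 1) = 31 * 16 ^ n + 16 ^ n := by ring
      rw [this, pow_add, pow_mul, h31, one_pow, one_mul]
    · apply le_antisymm
      · refine (Subgroup.closure_le _).2 ?_
        rintro _ ⟨r, n, rfl⟩
        show cj (sn (r : G × G)) (x ^ (16 ^ n)) ∈ E.N0 φ x
        rw [cj_pow]
        refine pow_mem ?_ _
        refine Subgroup.subset_closure ⟨0, r, r.2, ?_⟩
        simp [cj]
      · refine (Subgroup.closure_le _).2 ?_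
        rintro _ ⟨n, r, hr, rfl⟩
        refine Subgroup.subset_closure ⟨⟨_, iterΓ' h n hr⟩, 0, ?_⟩
        show _ = cj (sn (cj (φ⁻¹ ^ n) r.1, cj (φ⁻¹ ^ n) r.2)) (x ^ (16 ^ 0))
        have h1 : cj (φ⁻¹ ^ n) x = x := cj_eq ((commute_of_cj hx).inv_left.pow_left n)
        rw [sn_cj, pow_zero, pow_one]
        nth_rewrite 2 [← h1]
        simp only [cj, mul_inv_rev, inv_pow, inv_inv]
        group

end Pool.Agent.H93.FS
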