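import Mathlib

/-!
MP_a4b3b2_al (S02581), proofs 252 of helper86, sections 4 and 5: engines and the M-lemma.
Everything is abstract: `G` is any group, an engine is a pair of homomorphisms `th et : Γ →* G`
together with two elements `d`, `sg`.
-/

namespace Pool.Agent.H93.FS

open scoped commutatorElement

/-- conjugation -/
def cj {G : Type*} [Group G] (g x : G) : G := g * x * g⁻¹

section cj

variable {G : Type*} [Group G]

@[simp] theorem cj_one_left (x : G) : cj 1 x = x := by simp [cj]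

@[simp] theorem cj_one_right (g : G) : cj g 1 = 1 := by simp [cj]

theorem cj_mul (g x y : G) : cj g (x * y) = cj g x * cj g y := by simp [cj, mul_assoc]

theorem cj_inv (g x : G) : cj g x⁻¹ = (cj g x)⁻¹ := by simp [cj, mul_assoc]

theorem cj_cj (g h x : G) : cj g (cj h x) = cj (g * h) x := by simp [cj, mul_assoc]

theorem cj_pow (g x : G) (n : ℕ) : cj g (x ^ n) = cj g x ^ n := by
  simp [cj, conj_pow]

theorem cj_comm (g x y : G) : cj g ⁅x, y⁆ = ⁅cj g x, cj g y⁆ := by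
  simp only [cj, commutatorElement_def]
  group

theorem cj_eq {g x : G} (h : Commute g x) : cj g x = x := by
  unfold cj
  rw [h.eq, mul_inv_cancel_right]

theorem commute_of_cj {g x : G} (h : cj g x = x) : Commute g x := by
  unfold cj at h
  rw [mul_inv_eq_iff_eq_mul] at h
  exact h

theorem cj_eq_iff {g x : G} : cj g x = x ↔ Commute g x := ⟨commute_of_cj, cj_eq⟩

theorem commute_cj {x y : G} (g : G) (h : Commute x y) : Commute (cj g x) (cj g y) := by
  unfold Commute SemiconjBy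
  rw [← cj_mul, ← cj_mul, h.eq]

theorem commute_cj_iff {x y : G} (g : G) : Commute (cj g x) (cj g y) ↔ Commute x y := by
  refine ⟨fun h => ?_, commute_cj g⟩
  have := commute_cj g⁻¹ h
  rwa [cj_cj, cj_cj, inv_mul_cancel, cj_one_left, cj_one_left] at this

theorem comm_mul_right (x y z : G) : ⁅x, y * z⁆ = ⁅x, y⁆ * cj y ⁅x, z⁆ := by
  simp only [cj, commutatorElement_def]
  group

theorem comm_mul_left (x y z : G) : ⁅x * y, z⁆ = cj x ⁅y, z⁆ * ⁅x, z⁆ := by
  simp only [cj, commutatorElement_def]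
  group

theorem comm_eq_one_iff {x y : G} : ⁅x, y⁆ = 1 ↔ Commute x y :=
  commutatorElement_eq_one_iff_commute

theorem inv_comm (x y : G) : ⁅x, y⁆⁻¹ = ⁅y, x⁆ := commutatorElement_inv x y

/-- solvability of a product of two subgroups, one normalising the other -/
theorem solv_sup (K N : Subgroup G) (hKN : K ≤ Subgroup.normalizer (N : Set G))
    (hK : Group.IsSolvable K) (hN : Group.IsSolvable N) : Group.IsSolvable (K ⊔ N : Subgroup G) := by
  set M : Subgroup G := K ⊔ N with hM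
  have hMN : M ≤ Subgroup.normalizer (N : Set G) := sup_le hKN Subgroup.le_normalizer
  have hnorm : (N.subgroupOf M).Normal := Subgroup.normal_subgroupOf_of_le_normalizer hMN
  have hKM : K ≤ M := le_sup_left
  have hNM : N ≤ M := le_sup_right
  let q : M →* M ⧸ (N.subgroupOf M) := QuotientGroup.mk' (N.subgroupOf M)
  let f : K →* M ⧸ (N.subgroupOf M) := q.comp (Subgroup.inclusion hKM)
  have hf : Function.Surjective f := by
    rw [← MonoidHom.range_eq_top]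
    have h1 : (⊤ : Subgroup M) ≤ f.range.comap q := by
      have h2 : M ≤ (f.range.comap q).map M.subtype := by
        refine sup_le ?_ ?_
        · intro k hk
          refine ⟨⟨k, hKM hk⟩, ?_, rfl⟩
          exact ⟨⟨k, hk⟩, rfl⟩
        · intro n hn
          refine ⟨⟨n, hNM hn⟩, ?_, rfl⟩
          refine ⟨1, ?_⟩
          rw [map_one]
          symm
          exact (QuotientGroup.eq_one_iff _).2 hn
      intro m _
      obtain ⟨m', hm', he⟩ := h2 m.2
      have : m' = m := Subtype.ext he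
      rw [← this]
      exact hm'
    rw [eq_top_iff]
    intro y _
    obtain ⟨m, rfl⟩ := QuotientGroup.mk'_surjective (N.subgroupOf M) y
    exact h1 (Subgroup.mem_top m)
  have h3 : Group.IsSolvable (M ⧸ (N.subgroupOf M)) := Group.isSolvable_of_surjective hf
  have h4 : Group.IsSolvable N := hN
  refine Group.isSolvable_of_ker_le_range (Subgroup.inclusion hNM) q ?_
  intro m hm
  have : m ∈ N.subgroupOf M := (QuotientGroup.eq_one_iff _).1 hm
  exact ⟨⟨m, this⟩, rfl⟩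

theorem cj_mem_of_gen {S : Set G} {K : Subgroup G} (g : G) (h : ∀ x ∈ S, cj g x ∈ K) {y : G}
    (hy : y ∈ Subgroup.closure S) : cj g y ∈ K := by
  have h1 : Subgroup.closure S ≤ K.comap (MulAut.conj g).toMonoidHom :=
    (Subgroup.closure_le _).2 fun x hx => h x hx
  exact h1 hy

theorem cj_mem_of_sup {A B K : Subgroup G} (g : G) (hA : ∀ x ∈ A, cj g x ∈ K)
    (hB : ∀ x ∈ B, cj g x ∈ K) {y : G} (hy : y ∈ A ⊔ B) : cj g y ∈ K := by
  have h1 : A ⊔ B ≤ K.comap (MulAut.conj g).toMonoidHom :=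
    sup_le (fun x hx => hA x hx) (fun x hx => hB x hx)
  exact h1 hy

theorem commute_of_gen {S : Set G} {z : G} (h : ∀ x ∈ S, Commute z x) {y : G}
    (hy : y ∈ Subgroup.closure S) : Commute z y := by
  have h1 : Subgroup.closure S ≤ Subgroup.centralizer {z} :=
    (Subgroup.closure_le _).2 fun x hx => Subgroup.mem_centralizer_singleton_iff.2 (h x hx).symm.eq
  exact (Subgroup.mem_centralizer_singleton_iff.1 (h1 hy)).symm

theorem commute_of_gen₂ {S S' : Set G} (h : ∀ x ∈ S, ∀ x' ∈ S', Commute x x') {y y' : G}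
    (hy : y ∈ Subgroup.closure S) (hy' : y' ∈ Subgroup.closure S') : Commute y y' :=
  commute_of_gen (fun x' hx' => (commute_of_gen (fun x hx => (h x hx x' hx').symm) hy).symm) hy'

theorem commute_of_sup {A B : Subgroup G} {z : G} (hA : ∀ x ∈ A, Commute z x)
    (hB : ∀ x ∈ B, Commute z x) {y : G} (hy : y ∈ A ⊔ B) : Commute z y := by
  have h1 : A ⊔ B ≤ Subgroup.centralizer {z} :=
    sup_le (fun x hx => Subgroup.mem_centralizer_singleton_iff.2 (hA x hx).symm.eq)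
      (fun x hx => Subgroup.mem_centralizer_singleton_iff.2 (hB x hx).symm.eq)
  exact (Subgroup.mem_centralizer_singleton_iff.1 (h1 hy)).symm

theorem cj_eq_cj_of_gen {S : Set G} {g h : G} (hgh : ∀ x ∈ S, cj g x = cj h x) {y : G}
    (hy : y ∈ Subgroup.closure S) : cj g y = cj h y := by
  have h1 : ∀ x ∈ S, Commute (h⁻¹ * g) x := by
    intro x hx
    rw [← cj_eq_iff, ← cj_cj, hgh x hx, cj_cj, inv_mul_cancel, cj_one_left]
  have h2 := cj_eq (commute_of_gen h1 hy)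
  calc cj g y = cj h (cj (h⁻¹ * g) y) := by rw [cj_cj, mul_inv_cancel_left]
    _ = cj h y := by rw [h2]

end cj

/-- an engine -/
structure Engine (Γ G : Type*) [Group Γ] [Group G] where
  /-- the `theta` part -/
  th : Γ →* G
  /-- the `eta` part -/
  et : Γ →* G
  /-- the swap -/
  d : G
  /-- the sign -/
  sg : G
  th2 : ∀ r, th r * th r = 1
  et2 : ∀ r, et r * et r = 1
  cth : ∀ r s u, Commute ⁅th r, et s⁆ (th u)
  cet : ∀ r s u, Commute ⁅th r, et s⁆ (et u)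
  sym : ∀ r s, ⁅th r, et s⁆ = ⁅th s, et r⁆
  d2 : d * d = 1
  sg2 : sg * sg = 1
  dth : ∀ r, Commute d (th r)
  sget : ∀ r, Commute sg (et r)
  thsg : ∀ r, ⁅th r, sg⁆ = ⁅th r, et r⁆
  det : ∀ r, ⁅d, et r⁆ = ⁅th r, et r⁆
  sbth : ∀ r, Commute ⁅d, sg⁆ (th r)
  sbet : ∀ r, Commute ⁅d, sg⁆ (et r)
  sbd : Commute ⁅d, sg⁆ d
  sbsg : Commute ⁅d, sg⁆ sg

namespace Engine

variable {Γ G : Type*} [Group Γ] [Group G] (E : Engine Γ G)

/-- the central involution `[d, sg]` -/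
def sb : G := ⁅E.d, E.sg⁆

theorem thc (r s : Γ) : Commute (E.th r) (E.th s) := by
  have h := E.th2 (r * s)
  rw [map_mul] at h
  have h1 := inv_eq_of_mul_eq_one_left h
  rw [mul_inv_rev, inv_eq_of_mul_eq_one_left (E.th2 r), inv_eq_of_mul_eq_one_left (E.th2 s)] at h1
  exact h1.symm

theorem etc (r s : Γ) : Commute (E.et r) (E.et s) := by
  have h := E.et2 (r * s)
  rw [map_mul] at h
  have h1 := inv_eq_of_mul_eq_one_left h
  rw [mul_inv_rev, inv_eq_of_mul_eq_one_left (E.et2 r), inv_eq_of_mul_eq_one_left (E.et2 s)] at h1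
  exact h1.symm

theorem thinv (r : Γ) : (E.th r)⁻¹ = E.th r := inv_eq_of_mul_eq_one_left (E.th2 r)

theorem etinv (r : Γ) : (E.et r)⁻¹ = E.et r := inv_eq_of_mul_eq_one_left (E.et2 r)

theorem dinv : E.d⁻¹ = E.d := inv_eq_of_mul_eq_one_left E.d2

theorem sginv : E.sg⁻¹ = E.sg := inv_eq_of_mul_eq_one_left E.sg2

theorem br_comm (r s u v : Γ) : Commute ⁅E.th r, E.et s⁆ ⁅E.th u, E.et v⁆ := by
  have h1 := E.cth r s u
  have h2 := E.cet r s v
  rw [commutatorElement_def (E.th u)]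
  exact ((h1.mul_right h2).mul_right h1.inv_right).mul_right h2.inv_right

theorem br_sq (r s : Γ) : ⁅E.th r, E.et s⁆ * ⁅E.th r, E.et s⁆ = 1 := by
  have h := comm_mul_left (E.th r) (E.th r) (E.et s)
  rw [E.th2, cj_eq (E.cth r s r).symm] at h
  rw [← h]
  simp

theorem s_aux (r r' : Γ) : ⁅E.th (r * r'), E.et (r * r')⁆ = ⁅E.th r, E.et r⁆ * ⁅E.th r', E.et r'⁆ := by
  rw [map_mul, map_mul, comm_mul_left, comm_mul_right (E.th r'), comm_mul_right (E.th r),
    cj_eq (E.cet r' r' r).symm, cj_eq (E.cet r r' r).symm, cj_mul, cj_eq (E.cth r' r r).symm,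
    cj_eq (E.cth r' r' r).symm, E.sym r' r]
  have h1 := E.br_comm r r' r' r'
  have h2 := E.br_comm r r' r r
  have h3 := E.br_sq r r'
  have h4 := E.br_comm r' r' r r
  calc ⁅E.th r, E.et r'⁆ * ⁅E.th r', E.et r'⁆ * (⁅E.th r, E.et r⁆ * ⁅E.th r, E.et r'⁆)
      = ⁅E.th r, E.et r'⁆ * ⁅E.th r', E.et r'⁆ * (⁅E.th r, E.et r'⁆ * ⁅E.th r, E.et r⁆) := by
        rw [h2.eq]
    _ = ⁅E.th r, E.et r'⁆ * (⁅E.th r', E.et r'⁆ * ⁅E.th r, E.et r'⁆) * ⁅E.th r, E.et r⁆ := by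
        group
    _ = ⁅E.th r, E.et r'⁆ * (⁅E.th r, E.et r'⁆ * ⁅E.th r', E.et r'⁆) * ⁅E.th r, E.et r⁆ := by
        rw [h1.eq]
    _ = (⁅E.th r, E.et r'⁆ * ⁅E.th r, E.et r'⁆) * (⁅E.th r', E.et r'⁆ * ⁅E.th r, E.et r⁆) := by
        group
    _ = ⁅E.th r, E.et r⁆ * ⁅E.th r', E.et r'⁆ := by rw [h3, one_mul, h4.eq]

/-- the homomorphism `r ↦ [th r, et r]` -/
def s : Γ →* G where
  toFun r := ⁅E.th r, E.et r⁆
  map_one' := by simp
  map_mul' := E.s_aux

theorem s_def (r : Γ) : E.s r = ⁅E.th r, E.et r⁆ := rfl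

theorem s2 (r : Γ) : E.s r * E.s r = 1 := by
  rw [s_def]
  exact E.br_sq r r

theorem sinv (r : Γ) : (E.s r)⁻¹ = E.s r := inv_eq_of_mul_eq_one_left (E.s2 r)

theorem sth (r u : Γ) : Commute (E.s r) (E.th u) := E.cth r r u

theorem set (r u : Γ) : Commute (E.s r) (E.et u) := E.cet r r u

theorem ss (r u : Γ) : Commute (E.s r) (E.s u) := by
  exact E.br_comm r r u u

theorem sd (r : Γ) : Commute (E.s r) E.d := by
  have h1 : E.s r = E.d * E.et r * E.d * E.et r := by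
    rw [s_def, ← E.det r, commutatorElement_def, E.dinv, E.etinv]
  have h2 := E.sinv r
  unfold Commute SemiconjBy
  calc E.s r * E.d = (E.s r)⁻¹ * E.d := by rw [h2]
    _ = E.d * (E.d * E.et r * E.d * E.et r) := by
      rw [h1]
      simp only [mul_inv_rev, E.dinv, E.etinv]
      have h3 := E.d2
      have : E.d * (E.d * E.et r * E.d * E.et r) = (E.d * E.d) * (E.et r * (E.d * E.et r)) := by
        group
      rw [this, h3, one_mul]
      have : E.et r * (E.d * (E.et r * E.d)) * E.d = E.et r * (E.d * E.et r) * (E.d * E.d) := by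
        group
      rw [this, h3, mul_one]
    _ = E.d * E.s r := by rw [h1]

theorem ssg (r : Γ) : Commute (E.s r) E.sg := by
  have h1 : E.s r = E.th r * E.sg * E.th r * E.sg := by
    rw [s_def, ← E.thsg r, commutatorElement_def, E.sginv, E.thinv]
  have h2 := E.sinv r
  have h3 := E.sg2
  unfold Commute SemiconjBy
  calc E.s r * E.sg = E.th r * E.sg * E.th r * (E.sg * E.sg) := by rw [h1]; group
    _ = (E.sg * E.sg) * (E.th r * E.sg * E.th r) := by rw [h3, mul_one, one_mul]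
    _ = E.sg * (E.sg * (E.th r * (E.sg * E.th r))) := by group
    _ = E.sg * (E.th r * E.sg * E.th r * E.sg)⁻¹ := by
      simp only [mul_inv_rev, E.sginv, E.thinv]
    _ = E.sg * E.s r := by rw [← h1, h2]

theorem sb2 : E.sb * E.sb = 1 := by
  have h1 : Commute E.sb E.d := E.sbd
  have h := comm_mul_left E.d E.d E.sg
  rw [E.d2, cj_eq E.sbd.symm] at h
  unfold sb
  rw [← h]
  simp

theorem sbs (r : Γ) : Commute E.sb (E.s r) := by
  have h1 := E.sbth r
  have h2 := E.sbet r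
  unfold sb
  rw [s_def, commutatorElement_def (E.th r)]
  exact ((h1.mul_right h2).mul_right h1.inv_right).mul_right h2.inv_right

theorem cj_d_et (r : Γ) : cj E.d (E.et r) = E.s r * E.et r := by
  rw [s_def, ← E.det r, commutatorElement_def]
  simp [cj]

theorem cj_th_sg (r : Γ) : cj (E.th r) E.sg = E.s r * E.sg := by
  rw [s_def, ← E.thsg r, commutatorElement_def]
  simp [cj]

theorem cj_d_sg : cj E.d E.sg = E.sb * E.sg := by
  unfold sb
  rw [commutatorElement_def]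
  simp [cj]

theorem th_mul_sg (r : Γ) : E.th r * E.sg = E.s r * E.sg * E.th r := by
  rw [← E.cj_th_sg r]
  simp [cj]

theorem et_mul_d (r : Γ) : E.et r * E.d = E.d * (E.s r * E.et r) := by
  rw [← E.cj_d_et r]
  unfold cj
  rw [E.dinv]
  calc E.et r * E.d = 1 * (E.et r * E.d) := by rw [one_mul]
    _ = E.d * E.d * (E.et r * E.d) := by rw [E.d2]
    _ = E.d * (E.d * E.et r * E.d) := by group

theorem sg_mul_d : E.sg * E.d = E.d * (E.sb * E.sg) := by
  rw [← E.cj_d_sg]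
  unfold cj
  rw [E.dinv]
  calc E.sg * E.d = 1 * (E.sg * E.d) := by rw [one_mul]
    _ = E.d * E.d * (E.sg * E.d) := by rw [E.d2]
    _ = E.d * (E.d * E.sg * E.d) := by group

end Engine

/-- a tower of square roots in an engine: the hypotheses of the M-lemma (odd and divisible case) -/
structure Tower {Γ G : Type*} [Group Γ] [Group G] (E : Engine Γ G) (x : ℕ → G) : Prop where
  sq : ∀ n, x (n + 1) * x (n + 1) = x n
  et : ∀ n r, Commute (E.et r) (x n)
  sg : ∀ n, Commute E.sg (x n)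
  sb : ∀ n, cj E.sb (x n) = (x n)⁻¹
  cc : ∀ n, Commute (x n) (cj E.d (x n))
  th : ∀ n r, Commute (E.th r) (x n * cj E.d (x n))

namespace Tower

variable {Γ G : Type*} [Group Γ] [Group G] {E : Engine Γ G} {x : ℕ → G}

/-- `N0` -/
def N0 (E : Engine Γ G) (x : ℕ → G) : Subgroup G :=
  Subgroup.closure {g | ∃ r n, g = cj (E.s r) (x n)}

/-- `N1`, the `d`-conjugate of `N0` -/
def N1 (E : Engine Γ G) (x : ℕ → G) : Subgroup G :=
  Subgroup.closure {g | ∃ r n, g = cj E.d (cj (E.s r) (x n))}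

theorem mem (r : Γ) (n : ℕ) : cj (E.s r) (x n) ∈ N0 E x := Subgroup.subset_closure ⟨r, n, rfl⟩

theorem mem' (n : ℕ) : x n ∈ N0 E x := by
  have := mem (E := E) (x := x) 1 n
  rwa [map_one, cj_one_left] at this

theorem d_mem {y : G} (hy : y ∈ N0 E x) : cj E.d y ∈ N1 E x := by
  refine cj_mem_of_gen _ ?_ hy
  rintro _ ⟨r, n, rfl⟩
  exact Subgroup.subset_closure ⟨r, n, rfl⟩

theorem d_mem1 {y : G} (hy : y ∈ N1 E x) : cj E.d y ∈ N0 E x := by
  refine cj_mem_of_gen _ ?_ hy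
  rintro _ ⟨r, n, rfl⟩
  rw [cj_cj, E.d2, cj_one_left]
  exact mem r n

theorem mem_N1 {y : G} : y ∈ N1 E x ↔ cj E.d y ∈ N0 E x := by
  refine ⟨d_mem1, fun h => ?_⟩
  have := d_mem h
  rwa [cj_cj, E.d2, cj_one_left] at this

theorem s_mem {y : G} (r : Γ) (hy : y ∈ N0 E x) : cj (E.s r) y ∈ N0 E x := by
  refine cj_mem_of_gen _ ?_ hy
  rintro _ ⟨u, n, rfl⟩
  rw [cj_cj, ← map_mul]
  exact mem _ n

theorem s_mem1 {y : G} (r : Γ) (hy : y ∈ N1 E x) : cj (E.s r) y ∈ N1 E x := by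
  rw [mem_N1] at hy ⊢
  rw [cj_cj, ← (E.sd r).eq, ← cj_cj]
  exact s_mem r hy

variable (T : Tower E x)

include T

theorem pow_eq (n k : ℕ) : x n = x (n + k) ^ (2 ^ k) := by
  induction k with
  | zero => simp
  | succ k ih =>
    rw [ih, pow_succ', pow_mul, ← add_assoc, pow_two, T.sq]

theorem et_d (n : ℕ) (r : Γ) : cj (E.et r) (cj E.d (x n)) = cj (E.s r) (cj E.d (x n)) := by
  rw [cj_cj, E.et_mul_d, ← mul_assoc, ← (E.sd r).eq, ← cj_cj, cj_eq (T.et n r), ← cj_cj]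

theorem sg_d (n : ℕ) : cj E.sg (cj E.d (x n)) = (cj E.d (x n))⁻¹ := by
  rw [cj_cj, E.sg_mul_d, ← mul_assoc, ← cj_cj, cj_eq (T.sg n), ← cj_cj, T.sb n, cj_inv]

theorem c01_gen (n : ℕ) (r : Γ) : Commute (x n) (cj (E.s r) (cj E.d (x n))) := by
  have h := commute_cj (E.et r) (T.cc n)
  rwa [cj_eq (T.et n r), T.et_d] at h

theorem c01_gen' (n : ℕ) (r : Γ) : Commute (cj (E.s r) (x n)) (cj E.d (x n)) := by
  have h := commute_cj (E.s r) (T.c01_gen n r)
  rwa [cj_cj (E.s r) (E.s r), E.s2, cj_one_left] at h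

theorem k_eq (n : ℕ) (r : Γ) :
    ⁅x n, cj (E.s r) (x n)⁆ = ⁅(cj (E.s r) (cj E.d (x n)))⁻¹, cj E.d (x n)⁆ := by
  set a := x n with ha
  set a' := cj E.d a with ha'
  set b := cj (E.s r) a with hb
  set b' := cj (E.s r) a' with hb'
  have hab' : Commute a b' := T.c01_gen n r
  have hba' : Commute b a' := T.c01_gen' n r
  have haa' : Commute a a' := T.cc n
  have hbb' : Commute b b' := commute_cj _ haa'
  have h1 : cj E.sg (a * a') = a * a'⁻¹ := by
    rw [cj_mul, cj_eq (T.sg n), T.sg_d]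
  have h2 : Commute (a * a') (a * a'⁻¹) := by
    have := haa'
    exact ((Commute.refl a).mul_left haa'.symm).mul_right
      ((haa'.inv_right).mul_left (Commute.refl a').inv_right)
  have h3 : cj (E.th r) (a * a'⁻¹) = b * b'⁻¹ := by
    rw [← h1, cj_cj, E.th_mul_sg, ← cj_cj, cj_eq (T.th n r), ← cj_cj, h1, cj_mul, cj_inv]
  have h4 : Commute (a * a') (b * b'⁻¹) := by
    have h := commute_cj (E.th r) h2
    rwa [cj_eq (T.th n r), h3] at h
  -- expand
  have h5 : ⁅a * a', b * b'⁻¹⁆ = ⁅a, b⁆ * ⁅a', b'⁻¹⁆ := by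
    rw [comm_mul_left, comm_mul_right a', comm_mul_right a]
    have e1 : ⁅a', b⁆ = 1 := comm_eq_one_iff.2 hba'.symm
    have e2 : ⁅a, b'⁻¹⁆ = 1 := comm_eq_one_iff.2 hab'.inv_right
    rw [e1, e2, one_mul, cj_one_right, mul_one, cj_cj]
    have e3 : Commute (a * b) ⁅a', b'⁻¹⁆ := by
      have f1 : Commute (a * b) a' := haa'.mul_left hba'
      have f2 : Commute (a * b) b'⁻¹ := (hab'.mul_left hbb').inv_right
      rw [commutatorElement_def]
      exact ((f1.mul_right f2).mul_right f1.inv_right).mul_right f2.inv_right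
    rw [cj_eq e3]
    have e4 : Commute ⁅a', b'⁻¹⁆ ⁅a, b⁆ := by
      have f0 : Commute a' a := haa'.symm
      have f1 : Commute a' b := hba'.symm
      have f2 : Commute b'⁻¹ a := hab'.symm.inv_left
      have f3 : Commute b'⁻¹ b := hbb'.symm.inv_left
      rw [commutatorElement_def a b]
      have g1 : Commute ⁅a', b'⁻¹⁆ a := by
        rw [commutatorElement_def]
        exact ((f0.mul_left f2).mul_left f0.inv_left).mul_left f2.inv_left
      have g2 : Commute ⁅a', b'⁻¹⁆ b := by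
        rw [commutatorElement_def]
        exact ((f1.mul_left f3).mul_left f1.inv_left).mul_left f3.inv_left
      exact ((g1.mul_right g2).mul_right g1.inv_right).mul_right g2.inv_right
    exact e4.eq
  rw [comm_eq_one_iff.2 h4] at h5
  rw [← inv_comm a' b'⁻¹]
  exact eq_inv_of_mul_eq_one_left h5.symm

theorem k_comm (n : ℕ) (r : Γ) : Commute ⁅x n, cj (E.s r) (x n)⁆ (x n) ∧
    Commute ⁅x n, cj (E.s r) (x n)⁆ (cj (E.s r) (x n)) := by
  rw [T.k_eq n r]
  have hab' := T.c01_gen n r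
  have hba' := T.c01_gen' n r
  have haa' := T.cc n
  have hbb' := commute_cj (E.s r) haa'
  constructor
  · rw [commutatorElement_def]
    have f1 := hab'.symm.inv_left
    have f2 := haa'.symm
    exact ((f1.mul_left f2).mul_left f1.inv_left).mul_left f2.inv_left
  · rw [commutatorElement_def]
    have f1 := hbb'.symm.inv_left
    have f2 := hba'.symm
    exact ((f1.mul_left f2).mul_left f1.inv_left).mul_left f2.inv_left

theorem k_sq (n : ℕ) (r : Γ) :
    ⁅x n, cj (E.s r) (x n)⁆ * ⁅x n, cj (E.s r) (x n)⁆ = 1 := by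
  have h1 : cj (E.et r) ⁅x n, cj (E.s r) (x n)⁆ = ⁅x n, cj (E.s r) (x n)⁆ := by
    rw [cj_comm, cj_eq (T.et n r), cj_cj, ← (E.set r r).eq, ← cj_cj, cj_eq (T.et n r)]
  have h2 : cj (E.et r) ⁅x n, cj (E.s r) (x n)⁆ = cj (E.s r) ⁅x n, cj (E.s r) (x n)⁆ := by
    rw [T.k_eq n r, cj_comm, cj_comm, cj_inv, cj_inv, cj_cj (E.et r), ← (E.set r r).eq,
      ← cj_cj (E.s r) (E.et r), T.et_d]
  have h3 : cj (E.s r) ⁅x n, cj (E.s r) (x n)⁆ = ⁅x n, cj (E.s r) (x n)⁆⁻¹ := by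
    rw [cj_comm, cj_cj, E.s2, cj_one_left, inv_comm]
  have h4 : ⁅x n, cj (E.s r) (x n)⁆ = ⁅x n, cj (E.s r) (x n)⁆⁻¹ := by
    rw [← h3, ← h2, h1]
  nth_rewrite 1 [h4]
  exact inv_mul_cancel _

theorem c00_gen (n : ℕ) (r : Γ) : Commute (x n) (cj (E.s r) (x n)) := by
  obtain ⟨h1, h2⟩ := T.k_comm (n + 1) r
  have h3 := T.k_sq (n + 1) r
  have h4 : Commute (x (n + 1)) (cj (E.s r) (x (n + 1)) * cj (E.s r) (x (n + 1))) := by
    rw [← comm_eq_one_iff, comm_mul_right, cj_eq h2.symm, h3]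
  rw [← T.sq n, cj_mul]
  exact h4.mul_left h4

theorem c00_gen2 (n m : ℕ) (r : Γ) : Commute (x n) (cj (E.s r) (x m)) := by
  rcases le_total n m with h | h
  · obtain ⟨k, rfl⟩ := Nat.exists_eq_add_of_le h
    rw [T.pow_eq n k]
    exact (T.c00_gen _ r).pow_left _
  · obtain ⟨k, rfl⟩ := Nat.exists_eq_add_of_le h
    rw [T.pow_eq m k, cj_pow]
    exact (T.c00_gen _ r).pow_right _

theorem c01_gen2 (n m : ℕ) (r : Γ) : Commute (x n) (cj (E.s r) (cj E.d (x m))) := by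
  rcases le_total n m with h | h
  · obtain ⟨k, rfl⟩ := Nat.exists_eq_add_of_le h
    rw [T.pow_eq n k]
    exact (T.c01_gen _ r).pow_left _
  · obtain ⟨k, rfl⟩ := Nat.exists_eq_add_of_le h
    rw [T.pow_eq m k, cj_pow, cj_pow]
    exact (T.c01_gen _ r).pow_right _

/-- `[N0, N1] = 1` -/
theorem c01 {y z : G} (hy : y ∈ N0 E x) (hz : z ∈ N1 E x) : Commute y z := by
  refine commute_of_gen₂ ?_ hy hz
  rintro _ ⟨r, n, rfl⟩ _ ⟨u, m, rfl⟩
  have h := commute_cj (E.s r) (T.c01_gen2 n m (r * u))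
  rwa [cj_cj (E.s r) (E.s (r * u)), ← map_mul, ← mul_assoc, map_mul, map_mul, E.s2, one_mul,
    cj_cj (E.s u) E.d, (E.sd u).eq, ← cj_cj] at h

/-- `N0` is abelian -/
theorem c00 {y z : G} (hy : y ∈ N0 E x) (hz : z ∈ N0 E x) : Commute y z := by
  refine commute_of_gen₂ ?_ hy hz
  rintro _ ⟨r, n, rfl⟩ _ ⟨u, m, rfl⟩
  have h := commute_cj (E.s r) (T.c00_gen2 n m (r * u))
  rwa [cj_cj (E.s r) (E.s (r * u)), ← map_mul, ← mul_assoc, map_mul, map_mul, E.s2, one_mul] at h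

theorem c11 {y z : G} (hy : y ∈ N1 E x) (hz : z ∈ N1 E x) : Commute y z := by
  rw [← commute_cj_iff E.d]
  exact T.c00 (mem_N1.1 hy) (mem_N1.1 hz)

/-- square roots -/
theorem sqrt {y : G} (hy : y ∈ N0 E x) : ∃ z ∈ N0 E x, z * z = y := by
  induction hy using Subgroup.closure_induction with
  | mem y hy =>
    obtain ⟨r, n, rfl⟩ := hy
    exact ⟨cj (E.s r) (x (n + 1)), mem r (n + 1), by rw [← cj_mul, T.sq]⟩
  | one => exact ⟨1, one_mem _, one_mul 1⟩
  | mul y z _ _ ihy ihz =>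
    obtain ⟨a, ha, rfl⟩ := ihy
    obtain ⟨b, hb, rfl⟩ := ihz
    exact ⟨a * b, mul_mem ha hb, by rw [(T.c00 ha hb).mul_mul_mul_comm]⟩
  | inv y _ ih =>
    obtain ⟨a, ha, rfl⟩ := ih
    exact ⟨a⁻¹, inv_mem ha, by rw [mul_inv_rev]⟩

theorem et0 {y : G} (r : Γ) (hy : y ∈ N0 E x) : Commute (E.et r) y := by
  refine commute_of_gen ?_ hy
  rintro _ ⟨u, n, rfl⟩
  rw [← cj_eq_iff, cj_cj, ← (E.set u r).eq, ← cj_cj, cj_eq (T.et n r)]

theorem et1 {y : G} (r : Γ) (hy : y ∈ N1 E x) : cj (E.et r) y = cj (E.s r) y := by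
  refine cj_eq_cj_of_gen ?_ hy
  rintro _ ⟨u, n, rfl⟩
  rw [cj_cj E.d, ← (E.sd u).eq, ← cj_cj, cj_cj (E.et r), ← (E.set u r).eq, ← cj_cj, T.et_d,
    cj_cj (E.s u), (E.ss u r).eq, ← cj_cj (E.s r)]

theorem sg0 {y : G} (hy : y ∈ N0 E x) : Commute E.sg y := by
  refine commute_of_gen ?_ hy
  rintro _ ⟨u, n, rfl⟩
  rw [← cj_eq_iff, cj_cj, ← (E.ssg u).eq, ← cj_cj, cj_eq (T.sg n)]

theorem sb0 {y : G} (hy : y ∈ N0 E x) : cj E.sb y = y⁻¹ := by
  induction hy using Subgroup.closure_induction with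
  | mem y hy =>
    obtain ⟨r, n, rfl⟩ := hy
    rw [cj_cj, (E.sbs r).eq, ← cj_cj, T.sb n, cj_inv]
  | one => simp
  | mul y z hy hz ihy ihz => rw [cj_mul, ihy, ihz, ← mul_inv_rev, (T.c00 hy hz).eq]
  | inv y _ ih => rw [cj_inv, ih]

theorem sg1 {y : G} (hy : y ∈ N1 E x) : cj E.sg y = y⁻¹ := by
  have h := mem_N1.1 hy
  have h1 : y = cj E.d (cj E.d y) := by rw [cj_cj, E.d2, cj_one_left]
  rw [h1, cj_cj E.sg, E.sg_mul_d, ← mul_assoc, ← cj_cj (E.d * E.sb), cj_eq (T.sg0 h),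
    ← cj_cj E.d E.sb, T.sb0 h, cj_inv]

theorem sb1 {y : G} (hy : y ∈ N1 E x) : cj E.sb y = y⁻¹ := by
  have h := mem_N1.1 hy
  have h1 : y = cj E.d (cj E.d y) := by rw [cj_cj, E.d2, cj_one_left]
  have h2 : E.sb * E.d = E.d * E.sb := E.sbd.eq
  rw [h1, cj_cj E.sb, h2, ← cj_cj, T.sb0 h, cj_inv]

/-- first half of (F) -/
theorem F1 {y : G} (r : Γ) (hy : y ∈ N0 E x) :
    cj (E.th r) (y * cj E.d y) = y * cj E.d y := by
  induction hy using Subgroup.closure_induction with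
  | mem y hy =>
    obtain ⟨u, n, rfl⟩ := hy
    have h1 : cj E.d (cj (E.s u) (x n)) = cj (E.s u) (cj E.d (x n)) := by
      rw [cj_cj, ← (E.sd u).eq, ← cj_cj]
    rw [h1, ← cj_mul, cj_cj, ← (E.sth u r).eq, ← cj_cj, cj_eq (T.th n r)]
  | one => simp
  | mul y z hy hz ihy ihz =>
    have h1 : y * z * cj E.d (y * z) = (y * cj E.d y) * (z * cj E.d z) := by
      rw [cj_mul, (T.c01 hz (d_mem hy)).mul_mul_mul_comm]
    rw [h1, cj_mul, ihy, ihz]
  | inv y hy ih =>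
    have h1 : y⁻¹ * cj E.d y⁻¹ = (y * cj E.d y)⁻¹ := by
      rw [mul_inv_rev, cj_inv, ((T.c01 hy (d_mem hy)).inv_left.inv_right).eq]
    rw [h1, cj_inv, ih]

/-- second half of (F) -/
theorem F2 {y : G} (r : Γ) (hy : y ∈ N0 E x) :
    cj (E.th r) (y * (cj E.d y)⁻¹) = cj (E.s r) y * (cj (E.s r) (cj E.d y))⁻¹ := by
  induction hy using Subgroup.closure_induction with
  | mem y hy =>
    obtain ⟨u, n, rfl⟩ := hy
    have h1 : cj E.d (cj (E.s u) (x n)) = cj (E.s u) (cj E.d (x n)) := by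
      rw [cj_cj, ← (E.sd u).eq, ← cj_cj]
    have h2 : x n * (cj E.d (x n))⁻¹ = cj E.sg (x n * cj E.d (x n)) := by
      rw [cj_mul, cj_eq (T.sg n), T.sg_d]
    rw [h1, ← cj_inv (E.s u), ← cj_mul, cj_cj, ← (E.sth u r).eq, ← cj_cj, h2, cj_cj (E.th r),
      E.th_mul_sg, ← cj_cj (E.s r * E.sg), cj_eq (T.th n r), ← cj_cj (E.s r), ← h2, cj_mul,
      cj_mul, cj_inv, cj_inv, cj_cj (E.s u), cj_cj (E.s u), (E.ss u r).eq, ← cj_cj, ← cj_cj]
  | one => simp
  | mul y z hy hz ihy ihz =>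
    have k1 : Commute z (cj E.d y)⁻¹ := (T.c01 hz (d_mem hy)).inv_right
    have k2 : Commute (cj E.d y)⁻¹ (cj E.d z)⁻¹ :=
      ((T.c11 (d_mem hy) (d_mem hz)).inv_left).inv_right
    have h1 : y * z * (cj E.d (y * z))⁻¹ = (y * (cj E.d y)⁻¹) * (z * (cj E.d z)⁻¹) := by
      rw [cj_mul, mul_inv_rev, ← k2.eq, k1.mul_mul_mul_comm]
    have k3 := commute_cj (E.s r) k1
    have k4 := commute_cj (E.s r) k2
    rw [h1, cj_mul, ihy, ihz, cj_mul (E.s r), cj_mul E.d, cj_mul (E.s r), mul_inv_rev]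
    rw [cj_inv] at k3
    rw [cj_inv, cj_inv] at k4
    rw [← k4.eq, k3.mul_mul_mul_comm]
  | inv y hy ih =>
    have k1 : Commute y (cj E.d y) := T.c01 hy (d_mem hy)
    have h1 : y⁻¹ * (cj E.d y⁻¹)⁻¹ = (y * (cj E.d y)⁻¹)⁻¹ := by
      rw [mul_inv_rev, cj_inv, inv_inv, (k1.inv_left).eq]
    have k2 := commute_cj (E.s r) k1
    rw [h1, cj_inv, ih, mul_inv_rev, inv_inv, cj_inv, cj_inv E.d, cj_inv, inv_inv,
      (k2.inv_left).eq]

/-- (F) of section 5 -/
theorem F {y : G} (r : Γ) (hy : y ∈ N0 E x) :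
    cj (E.th r) (y * y) = (y * cj (E.s r) y) * (cj E.d y * (cj (E.s r) (cj E.d y))⁻¹) := by
  have k1 : Commute y (cj E.d y) := T.c01 hy (d_mem hy)
  have h1 : y * y = (y * cj E.d y) * (y * (cj E.d y)⁻¹) := by
    calc y * y = y * y * (cj E.d y * (cj E.d y)⁻¹) := by rw [mul_inv_cancel, mul_one]
      _ = _ := k1.mul_mul_mul_comm _ _
  rw [h1, cj_mul, T.F1 r hy, T.F2 r hy]
  have k3 : Commute (cj E.d y) (cj (E.s r) y) := (T.c01 (s_mem r hy) (d_mem hy)).symm
  rw [k3.mul_mul_mul_comm]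

/-- (F) applied to `y' = d y d` -/
theorem F' {y : G} (r : Γ) (hy : y ∈ N0 E x) :
    cj (E.th r) (cj E.d y * cj E.d y) =
      (cj E.d y * cj (E.s r) (cj E.d y)) * (y * (cj (E.s r) y)⁻¹) := by
  have h : cj (E.th r) (cj E.d y * cj E.d y) = cj E.d (cj (E.th r) (y * y)) := by
    rw [cj_cj E.d, (E.dth r).eq, ← cj_cj, cj_mul E.d]
  have h1 : cj E.d (cj (E.s r) y) = cj (E.s r) (cj E.d y) := by
    rw [cj_cj, ← (E.sd r).eq, ← cj_cj]
  have h2 : cj E.d (cj E.d y) = y := by rw [cj_cj, E.d2, cj_one_left]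
  rw [h, T.F r hy, cj_mul, cj_mul, cj_mul, h1, h2, cj_inv, ← h1, cj_cj E.d E.d, E.d2, cj_one_left]

/-- the `theta` image of an element of `N0` -/
theorem th_split {y : G} (r : Γ) (hy : y ∈ N0 E x) :
    ∃ y0 ∈ N0 E x, ∃ y1 ∈ N0 E x, cj (E.th r) y = y0 * cj E.d y1 ∧ y0 * y0 = y * cj (E.s r) y ∧
      y1 * y1 = y * (cj (E.s r) y)⁻¹ := by
  obtain ⟨z, hz, rfl⟩ := T.sqrt hy
  have hs := s_mem (E := E) r hz
  have h1 : cj E.d (cj (E.s r) z) = cj (E.s r) (cj E.d z) := by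
    rw [cj_cj, ← (E.sd r).eq, ← cj_cj]
  refine ⟨z * cj (E.s r) z, mul_mem hz hs, z * (cj (E.s r) z)⁻¹, mul_mem hz (inv_mem hs),
    ?_, ?_, ?_⟩
  · rw [T.F r hz, cj_mul E.d, cj_inv E.d, h1]
  · rw [cj_mul, (T.c00 hz hs).mul_mul_mul_comm]
  · rw [cj_mul, mul_inv_rev, ((T.c00 hz hs).inv_right).mul_mul_mul_comm]

/-- `N0 N1` is normalised by everything -/
theorem th_mem {y : G} (r : Γ) (hy : y ∈ N0 E x ⊔ N1 E x) :
    cj (E.th r) y ∈ N0 E x ⊔ N1 E x := by
  refine cj_mem_of_sup _ ?_ ?_ hy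
  · intro y hy
    obtain ⟨a, ha, b, hb, h, -, -⟩ := T.th_split r hy
    rw [h]
    exact mul_mem (Subgroup.mem_sup_left ha) (Subgroup.mem_sup_right (d_mem hb))
  · intro y hy
    obtain ⟨a, ha, b, hb, h, -, -⟩ := T.th_split r (mem_N1.1 hy)
    have h1 : cj (E.th r) y = cj E.d (cj (E.th r) (cj E.d y)) := by
      rw [cj_cj (E.th r), ← (E.dth r).eq, ← cj_cj, cj_cj E.d E.d, E.d2, cj_one_left]
    rw [h1, h, cj_mul, cj_cj E.d E.d, E.d2, cj_one_left]
    exact mul_mem (Subgroup.mem_sup_right (d_mem ha)) (Subgroup.mem_sup_left hb)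

theorem et_mem {y : G} (r : Γ) (hy : y ∈ N0 E x ⊔ N1 E x) :
    cj (E.et r) y ∈ N0 E x ⊔ N1 E x := by
  refine cj_mem_of_sup _ ?_ ?_ hy
  · intro y hy
    rw [cj_eq (T.et0 r hy)]
    exact Subgroup.mem_sup_left hy
  · intro y hy
    rw [T.et1 r hy]
    exact Subgroup.mem_sup_right (s_mem1 r hy)

theorem sg_mem {y : G} (hy : y ∈ N0 E x ⊔ N1 E x) : cj E.sg y ∈ N0 E x ⊔ N1 E x := by
  refine cj_mem_of_sup _ ?_ ?_ hy
  · intro y hy
    rw [cj_eq (T.sg0 hy)]
    exact Subgroup.mem_sup_left hy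
  · intro y hy
    rw [T.sg1 hy]
    exact Subgroup.mem_sup_right (inv_mem hy)

theorem d_mem' {y : G} (hy : y ∈ N0 E x ⊔ N1 E x) : cj E.d y ∈ N0 E x ⊔ N1 E x := by
  refine cj_mem_of_sup _ ?_ ?_ hy
  · intro y hy
    exact Subgroup.mem_sup_right (d_mem hy)
  · intro y hy
    exact Subgroup.mem_sup_left (d_mem1 hy)

theorem comm {y z : G} (hy : y ∈ N0 E x ⊔ N1 E x) (hz : z ∈ N0 E x ⊔ N1 E x) :
    Commute y z := by
  refine commute_of_sup (fun z hz => ?_) (fun z hz => ?_) hz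
  · refine (commute_of_sup (fun y hy => ?_) (fun y hy => ?_) hy).symm
    · exact T.c00 hz hy
    · exact T.c01 hz hy
  · refine (commute_of_sup (fun y hy => ?_) (fun y hy => ?_) hy).symm
    · exact (T.c01 hy hz).symm
    · exact T.c11 hz hy

end Tower

end Pool.Agent.H93.FS
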